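import Mathlib

/-!
Combinatorial core for the lower bound on the chromatic number of `J_±(n,4,0)`.
-/

namespace Pool.Agent.W_MP_9d843c_co

open Finset

variable {n m : ℕ}

/-- The alternating sign vector of a finite set `S` of coordinates. -/
def alt (S : Finset (Fin n)) (x : Fin n) : ℤ :=
  if x ∈ S then (-1) ^ (S.filter (fun y => y < x)).card else 0

lemma alt_of_not_mem {S : Finset (Fin n)} {x : Fin n} (hx : x ∉ S) : alt S x = 0 := by
  simp [alt, hx]

lemma alt_cases {S : Finset (Fin n)} {x : Fin n} (hx : x ∈ S) : alt S x = 1 ∨ alt S x = -1 := by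
  simp only [alt, hx, if_true]
  exact neg_one_pow_eq_or ℤ _

/-- relative sign of `i` and `j` in `S` -/
def rel (S : Finset (Fin n)) (i j : Fin n) : Bool := decide (alt S i = alt S j)

/-- inner product of the alternating vectors -/
def ip (S T : Finset (Fin n)) : ℤ := ∑ x, alt S x * alt T x

lemma inter_of_ip {S T : Finset (Fin n)} (h : ip S T ≠ 0) : ∃ x, x ∈ S ∧ x ∈ T := by
  by_contra hcon
  push Not at hcon
  apply h
  unfold ip
  apply Finset.sum_eq_zero
  intro x _
  by_cases hx : x ∈ S
  · rw [alt_of_not_mem (hcon x hx), mul_zero]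
  · rw [alt_of_not_mem hx, zero_mul]

lemma third_of_ip {S T : Finset (Fin n)} {i j : Fin n} (hij : i ≠ j)
    (hiS : i ∈ S) (hiT : i ∈ T) (hjS : j ∈ S) (hjT : j ∈ T)
    (hrel : rel S i j ≠ rel T i j) (h : ip S T ≠ 0) :
    ∃ x, x ≠ i ∧ x ≠ j ∧ x ∈ S ∧ x ∈ T := by
  by_contra hcon
  push Not at hcon
  apply h
  unfold ip
  rw [Fintype.sum_eq_add i j hij]
  · have h1 := alt_cases hiS
    have h2 := alt_cases hiT
    have h3 := alt_cases hjS
    have h4 := alt_cases hjT
    unfold rel at hrel
    rcases h1 with h1 | h1 <;> rcases h2 with h2 | h2 <;> rcases h3 with h3 | h3 <;>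
      rcases h4 with h4 | h4 <;> simp [h1, h2, h3, h4] at hrel ⊢
  · intro x hx
    by_cases hxS : x ∈ S
    · rw [alt_of_not_mem (hcon x hx.1 hx.2 hxS), mul_zero]
    · rw [alt_of_not_mem hxS, zero_mul]

lemma card_pair_le {x y : Fin n} (hxy : x ≠ y) (F : Finset (Finset (Fin n)))
    (hF : ∀ S ∈ F, S.card = 4) :
    (F.filter (fun S => x ∈ S ∧ y ∈ S)).card ≤ n ^ 2 := by
  have hsub : F.filter (fun S => x ∈ S ∧ y ∈ S) ⊆
      (univ : Finset (Fin n × Fin n)).image (fun p => ({x, y, p.1, p.2} : Finset (Fin n))) := by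
    intro S hS
    rw [mem_filter] at hS
    obtain ⟨hSF, hx, hy⟩ := hS
    have hc := hF S hSF
    have h2 : ((S.erase x).erase y).card = 2 := by
      rw [card_erase_of_mem, card_erase_of_mem hx, hc]
      exact mem_erase.mpr ⟨hxy.symm, hy⟩
    obtain ⟨z, w, _, hzw⟩ := card_eq_two.mp h2
    rw [mem_image]
    refine ⟨(z, w), mem_univ _, ?_⟩
    have : S = insert x (insert y ((S.erase x).erase y)) := by
      rw [insert_erase (mem_erase.mpr ⟨hxy.symm, hy⟩), insert_erase hx]
    rw [this, hzw]
  calc _ ≤ _ := card_le_card hsub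
    _ ≤ (univ : Finset (Fin n × Fin n)).card := card_image_le
    _ = n ^ 2 := by simp [sq]

lemma card_triple_le {x y z : Fin n} (hxy : x ≠ y) (hzx : z ≠ x) (hzy : z ≠ y)
    (F : Finset (Finset (Fin n))) (hF : ∀ S ∈ F, S.card = 4) :
    (F.filter (fun S => x ∈ S ∧ y ∈ S ∧ z ∈ S)).card ≤ n := by
  have hsub : F.filter (fun S => x ∈ S ∧ y ∈ S ∧ z ∈ S) ⊆
      (univ : Finset (Fin n)).image (fun p => ({x, y, z, p} : Finset (Fin n))) := by
    intro S hS
    rw [mem_filter] at hS
    obtain ⟨hSF, hx, hy, hz⟩ := hS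
    have hc := hF S hSF
    have hy' : y ∈ S.erase x := mem_erase.mpr ⟨hxy.symm, hy⟩
    have hz' : z ∈ (S.erase x).erase y := mem_erase.mpr ⟨hzy, mem_erase.mpr ⟨hzx, hz⟩⟩
    have h2 : (((S.erase x).erase y).erase z).card = 1 := by
      rw [card_erase_of_mem hz', card_erase_of_mem hy', card_erase_of_mem hx, hc]
    obtain ⟨w, hw⟩ := card_eq_one.mp h2
    rw [mem_image]
    refine ⟨w, mem_univ _, ?_⟩
    have : S = insert x (insert y (insert z (((S.erase x).erase y).erase z))) := by
      rw [insert_erase hz', insert_erase hy', insert_erase hx]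
    rw [this, hw]
  calc _ ≤ _ := card_le_card hsub
    _ ≤ (univ : Finset (Fin n)).card := card_image_le
    _ = n := by simp

/-- A pairwise intersecting family of `4`-sets is small or a star. -/
lemma small_or_star (F : Finset (Finset (Fin n))) (hF : ∀ S ∈ F, S.card = 4)
    (hint : ∀ S ∈ F, ∀ T ∈ F, ∃ x, x ∈ S ∧ x ∈ T) :
    F.card ≤ 16 * n ^ 2 ∨ ∃ i : Fin n, ∀ S ∈ F, i ∈ S := by
  by_cases hstar : ∃ i : Fin n, ∀ S ∈ F, i ∈ S
  · exact Or.inr hstar
  · left
    push Not at hstar
    choose g hgF hg using hstar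
    rcases F.eq_empty_or_nonempty with rfl | ⟨S₁, hS₁⟩
    · simp
    · have hsub : F ⊆ S₁.biUnion (fun x => (g x).biUnion
          (fun y => (if x = y then ∅ else F.filter (fun S => x ∈ S ∧ y ∈ S)))) := by
        intro S hS
        obtain ⟨x, hxS, hxS₁⟩ := hint S hS S₁ hS₁
        obtain ⟨y, hyS, hyg⟩ := hint S hS (g x) (hgF x)
        have hxy : x ≠ y := by
          rintro rfl
          exact hg x hyg
        rw [mem_biUnion]
        refine ⟨x, hxS₁, ?_⟩
        rw [mem_biUnion]
        refine ⟨y, hyg, ?_⟩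
        rw [if_neg hxy, mem_filter]
        exact ⟨hS, hxS, hyS⟩
      calc F.card ≤ _ := card_le_card hsub
        _ ≤ S₁.card * (4 * n ^ 2) := by
          apply card_biUnion_le_card_mul
          intro x _
          calc _ ≤ (g x).card * (n ^ 2) := by
                apply card_biUnion_le_card_mul
                intro y _
                split_ifs with hxy
                · simp
                · exact card_pair_le hxy F hF
            _ = _ := by rw [hF _ (hgF x)]
        _ = 16 * n ^ 2 := by rw [hF _ hS₁]; ring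

/-- `S` is a star set at `i` following the sign pattern `τ`. -/
def Cons (S : Finset (Fin n)) (i : Fin n) (τ : Fin n → Bool) : Prop :=
  i ∈ S ∧ ∀ j ∈ S, j ≠ i → rel S i j = τ j

instance (S : Finset (Fin n)) (i : Fin n) (τ : Fin n → Bool) : Decidable (Cons S i τ) := by
  unfold Cons; infer_instance

/-- Structure of a colour class. -/
lemma class_structure (F : Finset (Finset (Fin n))) (hF : ∀ S ∈ F, S.card = 4)
    (hip : ∀ S ∈ F, ∀ T ∈ F, ip S T ≠ 0) (hn : 0 < n) :
    ∃ (i : Fin n) (τ : Fin n → Bool), (F.filter (fun S => ¬ Cons S i τ)).card ≤ 16 * n ^ 2 := by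
  rcases small_or_star F hF (fun S hS T hT => inter_of_ip (hip S hS T hT)) with h | ⟨i, hi⟩
  · exact ⟨⟨0, hn⟩, fun _ => true, le_trans (card_filter_le _ _) h⟩
  · classical
    set P : Fin n → Finset (Finset (Fin n)) :=
      fun j => F.filter (fun S => j ∈ S ∧ rel S i j = true) with hP
    refine ⟨i, fun j => decide (4 * n < (P j).card), ?_⟩
    have hsub : (F.filter (fun S => ¬ Cons S i (fun j => decide (4 * n < (P j).card)))) ⊆
        (univ : Finset (Fin n)).biUnion (fun j => F.filter
          (fun S => j ∈ S ∧ j ≠ i ∧ rel S i j ≠ decide (4 * n < (P j).card))) := by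
      intro S hS
      rw [mem_filter] at hS
      obtain ⟨hSF, hS⟩ := hS
      unfold Cons at hS
      push Not at hS
      obtain ⟨j, hj, hji, hne⟩ := hS (hi S hSF)
      rw [mem_biUnion]
      refine ⟨j, mem_univ _, ?_⟩
      rw [mem_filter]
      exact ⟨hSF, hj, hji, hne⟩
    have hbound : ∀ j : Fin n, (F.filter
          (fun S => j ∈ S ∧ j ≠ i ∧ rel S i j ≠ decide (4 * n < (P j).card))).card ≤ 4 * n := by
      intro j
      by_cases hlt : 4 * n < (P j).card
      · -- then no set with relation false
        by_contra hcon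
        push Not at hcon
        have hne : (F.filter
          (fun S => j ∈ S ∧ j ≠ i ∧ rel S i j ≠ decide (4 * n < (P j).card))).Nonempty := by
          rw [← card_pos]; omega
        obtain ⟨T, hT⟩ := hne
        rw [mem_filter] at hT
        obtain ⟨hTF, hjT, hji, hrT⟩ := hT
        have hrT' : rel T i j = false := by
          simpa [hlt] using hrT
        have hsub2 : P j ⊆ T.biUnion (fun z => if z = i ∨ z = j then ∅ else
            F.filter (fun S => i ∈ S ∧ j ∈ S ∧ z ∈ S)) := by
          intro S hS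
          rw [hP] at hS
          simp only [mem_filter] at hS
          obtain ⟨hSF, hjS, hrS⟩ := hS
          obtain ⟨x, hxi, hxj, hxS, hxT⟩ := third_of_ip (Ne.symm hji) (hi S hSF) (hi T hTF) hjS hjT
            (by rw [hrS, hrT']; simp) (hip S hSF T hTF)
          rw [mem_biUnion]
          refine ⟨x, hxT, ?_⟩
          rw [if_neg (by push Not; exact ⟨hxi, hxj⟩), mem_filter]
          exact ⟨hSF, hi S hSF, hjS, hxS⟩
        have : (P j).card ≤ 4 * n := by
          calc (P j).card ≤ _ := card_le_card hsub2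
            _ ≤ T.card * n := by
              apply card_biUnion_le_card_mul
              intro z _
              split_ifs with hz
              · simp
              · push Not at hz
                exact card_triple_le (Ne.symm hji) hz.1 hz.2 F hF
            _ = 4 * n := by rw [hF T hTF]
        omega
      · have : F.filter
          (fun S => j ∈ S ∧ j ≠ i ∧ rel S i j ≠ decide (4 * n < (P j).card)) ⊆ P j := by
          intro S hS
          rw [mem_filter] at hS
          obtain ⟨hSF, hjS, hji, hr⟩ := hS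
          rw [hP]
          simp only [mem_filter]
          refine ⟨hSF, hjS, ?_⟩
          simpa [hlt] using hr
        calc _ ≤ _ := card_le_card this
          _ ≤ 4 * n := by omega
    calc _ ≤ _ := card_le_card hsub
      _ ≤ (univ : Finset (Fin n)).card * (4 * n) := by
        apply card_biUnion_le_card_mul
        intro j _
        exact hbound j
      _ = 4 * n ^ 2 := by simp; ring
      _ ≤ 16 * n ^ 2 := by nlinarith

/-- Collision count. -/
lemma collision {α β : Type*} [DecidableEq β] (X : Finset α) (Y : Finset β) (h : α → β)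
    (hY : ∀ x ∈ X, h x ∈ Y) :
    X.card ^ 2 ≤ Y.card * ((X ×ˢ X).filter (fun p => h p.1 = h p.2)).card := by
  classical
  have h1 : X.card = ∑ y ∈ Y, (X.filter (fun x => h x = y)).card :=
    card_eq_sum_card_fiberwise hY
  have h2 : ((X ×ˢ X).filter (fun p => h p.1 = h p.2)).card =
      ∑ y ∈ Y, (X.filter (fun x => h x = y)).card ^ 2 := by
    rw [card_eq_sum_card_fiberwise (f := fun p : α × α => h p.1) (t := Y)]
    · apply sum_congr rfl
      intro y _
      rw [sq, ← card_product]
      congr 1
      ext ⟨a, b⟩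
      simp only [mem_filter, mem_product]
      constructor
      · rintro ⟨⟨⟨ha, hb⟩, hab⟩, hay⟩
        exact ⟨⟨ha, hay⟩, hb, by rw [← hab, hay]⟩
      · rintro ⟨⟨ha, hay⟩, hb, hby⟩
        exact ⟨⟨⟨ha, hb⟩, by rw [hay, hby]⟩, hay⟩
    · intro p hp
      simp only [mem_coe, mem_filter, mem_product] at hp
      exact hY _ hp.1.1
  rw [h2]
  conv_lhs => rw [h1]
  exact_mod_cast sq_sum_le_card_mul_sum_sq (s := Y) (f := fun y => (X.filter (fun x => h x = y)).card)

end Pool.Agent.W_MP_9d843c_co
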