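import Mathlib
import Pool.Agent.W_MP_9d843c_co.Core

/-!
Counting quadruples.
-/

namespace Pool.Agent.W_MP_9d843c_co

open Finset

variable {n m : ℕ}

/-- The set of good quadruples. -/
def Quad {γ : Type*} [DecidableEq γ] (I₁ I₂ : Finset (Fin n)) (g : Fin n → Fin n → γ) :
    Finset ((Fin n × Fin n) × (Fin n × Fin n)) :=
  ((I₁ ×ˢ I₁) ×ˢ (I₂ ×ˢ I₂)).filter (fun p =>
    (g p.2.1 p.1.1 = g p.2.1 p.1.2 ∧ g p.2.2 p.1.1 = g p.2.2 p.1.2) ∧
    (g p.1.1 p.2.1 = g p.1.1 p.2.2 ∧ g p.1.2 p.2.1 = g p.1.2 p.2.2))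

lemma quad_count {γ : Type*} [DecidableEq γ] (I₁ I₂ : Finset (Fin n)) (g : Fin n → Fin n → γ)
    (q : ℕ) (Y : Fin n → Finset γ) (hY : ∀ i ∈ I₁ ∪ I₂, (Y i).card ≤ q)
    (hg : ∀ i ∈ I₁ ∪ I₂, ∀ j, g i j ∈ Y i) :
    I₁.card ^ 2 * I₂.card ^ 2 ≤ q ^ 4 * (Quad I₁ I₂ g).card := by
  classical
  rcases Nat.eq_zero_or_pos I₁.card with h0 | hpos
  · rw [h0]; simp
  set A := I₁ ×ˢ I₁ with hA
  set X : Fin n × Fin n → Finset (Fin n) := fun p => I₂.filter (fun x => g x p.1 = g x p.2) with hX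
  set Z : Fin n × Fin n → Finset (Fin n × Fin n) := fun p =>
    ((X p) ×ˢ (X p)).filter (fun c => (g p.1 c.1, g p.2 c.1) = (g p.1 c.2, g p.2 c.2)) with hZ
  have hAcard : A.card = I₁.card ^ 2 := by rw [hA, card_product, sq]
  -- step 1
  have h1 : I₂.card * I₁.card ^ 2 ≤ q * ∑ p ∈ A, (X p).card := by
    have hswap : ∑ p ∈ A, (X p).card = ∑ x ∈ I₂, (A.filter (fun p => g x p.1 = g x p.2)).card := by
      simp only [hX, card_filter]
      rw [sum_comm]
    rw [hswap, mul_sum, ← smul_eq_mul, ← sum_const]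
    apply sum_le_sum
    intro x hx
    have hxu : x ∈ I₁ ∪ I₂ := mem_union_right _ hx
    calc I₁.card ^ 2 ≤ (Y x).card * _ := collision I₁ (Y x) (fun j => g x j) (fun j _ => hg x hxu j)
      _ ≤ q * _ := Nat.mul_le_mul_right _ (hY x hxu)
  -- step 2
  have h2 : ∀ p ∈ A, (X p).card ^ 2 ≤ q ^ 2 * (Z p).card := by
    intro p hp
    rw [hA, mem_product] at hp
    have hp1 : p.1 ∈ I₁ ∪ I₂ := mem_union_left _ hp.1
    have hp2 : p.2 ∈ I₁ ∪ I₂ := mem_union_left _ hp.2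
    calc (X p).card ^ 2 ≤ ((Y p.1) ×ˢ (Y p.2)).card * (Z p).card :=
          collision (X p) ((Y p.1) ×ˢ (Y p.2)) (fun x => (g p.1 x, g p.2 x))
            (fun x _ => mem_product.mpr ⟨hg _ hp1 x, hg _ hp2 x⟩)
      _ ≤ q ^ 2 * (Z p).card := by
          apply Nat.mul_le_mul_right
          rw [card_product, sq]
          exact Nat.mul_le_mul (hY _ hp1) (hY _ hp2)
  -- step 3
  have h3 : (Quad I₁ I₂ g).card = ∑ p ∈ A, (Z p).card := by
    have : Quad I₁ I₂ g = (A.sigma Z).map ⟨fun s => (s.1, s.2), by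
        rintro ⟨a, b⟩ ⟨c, d⟩ h
        simp only [Prod.mk.injEq] at h
        obtain ⟨rfl, rfl⟩ := h
        rfl⟩ := by
      ext ⟨p, c⟩
      simp only [Quad, mem_filter, mem_product, mem_map, mem_sigma, hZ, hX, hA,
        Function.Embedding.coeFn_mk, Prod.mk.injEq]
      constructor
      · rintro ⟨⟨⟨hp1, hp2⟩, hc1, hc2⟩, ⟨ha, hb⟩, hcc, hd⟩
        exact ⟨⟨p, c⟩, ⟨⟨hp1, hp2⟩, ⟨⟨⟨hc1, ha⟩, hc2, hb⟩, hcc, hd⟩⟩, rfl, rfl⟩
      · rintro ⟨⟨p', c'⟩, ⟨⟨hp1, hp2⟩, ⟨⟨⟨hc1, ha⟩, hc2, hb⟩, hcc, hd⟩⟩, rfl, rfl⟩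
        exact ⟨⟨⟨hp1, hp2⟩, hc1, hc2⟩, ⟨ha, hb⟩, hcc, hd⟩
    rw [this, card_map, card_sigma]
  -- step 4
  have h4 : (∑ p ∈ A, (X p).card) ^ 2 ≤ A.card * ∑ p ∈ A, (X p).card ^ 2 := by
    exact_mod_cast sq_sum_le_card_mul_sum_sq (s := A) (f := fun p => (X p).card)
  have h5 : ∑ p ∈ A, (X p).card ^ 2 ≤ q ^ 2 * (Quad I₁ I₂ g).card := by
    rw [h3, mul_sum]
    exact sum_le_sum h2
  have h6 : I₁.card ^ 2 * (I₁.card ^ 2 * I₂.card ^ 2) ≤
      I₁.card ^ 2 * (q ^ 4 * (Quad I₁ I₂ g).card) := by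
    calc I₁.card ^ 2 * (I₁.card ^ 2 * I₂.card ^ 2) = (I₂.card * I₁.card ^ 2) ^ 2 := by ring
      _ ≤ (q * ∑ p ∈ A, (X p).card) ^ 2 := Nat.pow_le_pow_left h1 2
      _ = q ^ 2 * (∑ p ∈ A, (X p).card) ^ 2 := by ring
      _ ≤ q ^ 2 * (A.card * ∑ p ∈ A, (X p).card ^ 2) := Nat.mul_le_mul_left _ h4
      _ ≤ q ^ 2 * (A.card * (q ^ 2 * (Quad I₁ I₂ g).card)) :=
          Nat.mul_le_mul_left _ (Nat.mul_le_mul_left _ h5)
      _ = I₁.card ^ 2 * (q ^ 4 * (Quad I₁ I₂ g).card) := by rw [hAcard]; ring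
  exact Nat.le_of_mul_le_mul_left h6 (by positivity)

/-- Alternating values on a sorted `4`-set. -/
lemma alt_four {a b c d : Fin n} (hab : a < b) (hbc : b < c) (hcd : c < d) :
    alt {a, b, c, d} a = 1 ∧ alt {a, b, c, d} b = -1 ∧ alt {a, b, c, d} c = 1 ∧
      alt {a, b, c, d} d = -1 := by
  have hac := hab.trans hbc
  have had := hac.trans hcd
  have hbd := hbc.trans hcd
  refine ⟨?_, ?_, ?_, ?_⟩
  · have : ({a, b, c, d} : Finset (Fin n)).filter (fun y => y < a) = ∅ := by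
      ext x
      simp only [mem_filter, mem_insert, mem_singleton, notMem_empty, iff_false, not_and, not_lt]
      rintro (rfl | rfl | rfl | rfl) <;> order
    simp [alt, this]
  · have : ({a, b, c, d} : Finset (Fin n)).filter (fun y => y < b) = {a} := by
      ext x
      simp only [mem_filter, mem_insert, mem_singleton]
      constructor
      · rintro ⟨rfl | rfl | rfl | rfl, h⟩ <;> first | rfl | (exfalso; order)
      · rintro rfl; exact ⟨Or.inl rfl, hab⟩
    simp [alt, this]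
  · have : ({a, b, c, d} : Finset (Fin n)).filter (fun y => y < c) = {a, b} := by
      ext x
      simp only [mem_filter, mem_insert, mem_singleton]
      constructor
      · rintro ⟨rfl | rfl | rfl | rfl, h⟩ <;> first | (left; rfl) | (right; rfl) | (exfalso; order)
      · rintro (rfl | rfl)
        · exact ⟨Or.inl rfl, hac⟩
        · exact ⟨Or.inr (Or.inl rfl), hbc⟩
    simp [alt, this, card_pair hab.ne]
  · have : ({a, b, c, d} : Finset (Fin n)).filter (fun y => y < d) = {a, b, c} := by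
      ext x
      simp only [mem_filter, mem_insert, mem_singleton]
      constructor
      · rintro ⟨rfl | rfl | rfl | rfl, h⟩ <;>
          first | (left; rfl) | (right; left; rfl) | (right; right; rfl) | (exfalso; order)
      · rintro (rfl | rfl | rfl)
        · exact ⟨Or.inl rfl, had⟩
        · exact ⟨Or.inr (Or.inl rfl), hbd⟩
        · exact ⟨Or.inr (Or.inr (Or.inl rfl)), hcd⟩
    have hc3 : ({a, b, c} : Finset (Fin n)).card = 3 := card_eq_three.mpr
      ⟨a, b, c, hab.ne, hac.ne, hbc.ne, rfl⟩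
    simp [alt, this, hc3]

/-- If both pairs are not separated, the alternating vector is not consistent (sorted form). -/
lemma not_cons_sorted {a b c d : Fin n} (hab : a < b) (hbc : b < c) (hcd : c < d)
    (ctr : Fin m → Fin n) (τ : Fin m → Fin n → Bool) (κ : Fin m)
    (h1 : ∀ κ, ctr κ = c → τ κ a = τ κ b) (h2 : ∀ κ, ctr κ = d → τ κ a = τ κ b)
    (h3 : ∀ κ, ctr κ = a → τ κ c = τ κ d) (h4 : ∀ κ, ctr κ = b → τ κ c = τ κ d) :
    ¬ Cons {a, b, c, d} (ctr κ) (τ κ) := by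
  obtain ⟨e1, e2, e3, e4⟩ := alt_four hab hbc hcd
  rintro ⟨hi, hcons⟩
  have hac := hab.trans hbc
  have had := hac.trans hcd
  have hbd := hbc.trans hcd
  have ma : a ∈ ({a, b, c, d} : Finset (Fin n)) := by simp
  have mb : b ∈ ({a, b, c, d} : Finset (Fin n)) := by simp
  have mc : c ∈ ({a, b, c, d} : Finset (Fin n)) := by simp
  have md : d ∈ ({a, b, c, d} : Finset (Fin n)) := by simp
  simp only [mem_insert, mem_singleton] at hi
  rcases hi with hi | hi | hi | hi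
  · have x1 := hcons c mc (by rw [hi]; exact hac.ne')
    have x2 := hcons d md (by rw [hi]; exact had.ne')
    rw [hi] at x1 x2
    have := h3 κ hi
    rw [← x1, ← x2] at this
    simp_all [rel]
  · have x1 := hcons c mc (by rw [hi]; exact hbc.ne')
    have x2 := hcons d md (by rw [hi]; exact hbd.ne')
    rw [hi] at x1 x2
    have := h4 κ hi
    rw [← x1, ← x2] at this
    simp_all [rel]
  · have x1 := hcons a ma (by rw [hi]; exact hac.ne)
    have x2 := hcons b mb (by rw [hi]; exact hbc.ne)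
    rw [hi] at x1 x2
    have := h1 κ hi
    rw [← x1, ← x2] at this
    simp_all [rel]
  · have x1 := hcons a ma (by rw [hi]; exact had.ne)
    have x2 := hcons b mb (by rw [hi]; exact hbd.ne)
    rw [hi] at x1 x2
    have := h2 κ hi
    rw [← x1, ← x2] at this
    simp_all [rel]

lemma not_cons {a b c d : Fin n} (hab : a ≠ b) (hcd : c ≠ d)
    (hac : a < c) (had : a < d) (hbc : b < c) (hbd : b < d)
    (ctr : Fin m → Fin n) (τ : Fin m → Fin n → Bool) (κ : Fin m)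
    (h1 : ∀ κ, ctr κ = c → τ κ a = τ κ b) (h2 : ∀ κ, ctr κ = d → τ κ a = τ κ b)
    (h3 : ∀ κ, ctr κ = a → τ κ c = τ κ d) (h4 : ∀ κ, ctr κ = b → τ κ c = τ κ d) :
    ¬ Cons {a, b, c, d} (ctr κ) (τ κ) := by
  rcases lt_or_gt_of_ne hab with h | h <;> rcases lt_or_gt_of_ne hcd with h' | h'
  · exact not_cons_sorted h hbc h' ctr τ κ h1 h2 h3 h4
  · have : ({a, b, c, d} : Finset (Fin n)) = {a, b, d, c} := by
      ext x; simp only [mem_insert, mem_singleton]; tauto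
    rw [this]
    exact not_cons_sorted h hbd h' ctr τ κ h2 h1 (fun κ hκ => (h3 κ hκ).symm)
      (fun κ hκ => (h4 κ hκ).symm)
  · have : ({a, b, c, d} : Finset (Fin n)) = {b, a, c, d} := by
      ext x; simp only [mem_insert, mem_singleton]; tauto
    rw [this]
    exact not_cons_sorted h hac h' ctr τ κ (fun κ hκ => (h1 κ hκ).symm)
      (fun κ hκ => (h2 κ hκ).symm) h4 h3
  · have : ({a, b, c, d} : Finset (Fin n)) = {b, a, d, c} := by
      ext x; simp only [mem_insert, mem_singleton]; tauto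
    rw [this]
    exact not_cons_sorted h had h' ctr τ κ (fun κ hκ => (h2 κ hκ).symm)
      (fun κ hκ => (h1 κ hκ).symm) (fun κ hκ => (h4 κ hκ).symm) (fun κ hκ => (h3 κ hκ).symm)

end Pool.Agent.W_MP_9d843c_co
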