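import Mathlib
import Pool.Agent.W_MP_9d843c_co.Count

/-!
Main counting argument.
-/

namespace Pool.Agent.W_MP_9d843c_co

open Finset

theorem core (n m C : ℕ) (hn : 0 < n) (hC : 1 ≤ C) (hm : m ≤ C * n)
    (col : Finset (Fin n) → Fin m)
    (hcol : ∀ S T : Finset (Fin n), S.card = 4 → T.card = 4 → col S = col T → ip S T ≠ 0) :
    n ≤ 2 ^ (25 + 9 * C) := by
  classical
  rcases Nat.lt_or_ge n 3 with hn3 | hn3
  · calc n ≤ 2 ^ 2 := by omega
      _ ≤ 2 ^ (25 + 9 * C) := Nat.pow_le_pow_right (by norm_num) (by omega)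
  set V : Finset (Finset (Fin n)) := powersetCard 4 univ with hV
  have hVmem : ∀ S, S ∈ V ↔ S.card = 4 := by
    intro S; rw [hV, mem_powersetCard]; simp
  set F : Fin m → Finset (Finset (Fin n)) := fun κ => V.filter (fun S => col S = κ) with hF
  have hstruct : ∀ κ : Fin m, ∃ (i : Fin n) (τ : Fin n → Bool),
      ((F κ).filter (fun S => ¬ Cons S i τ)).card ≤ 16 * n ^ 2 := by
    intro κ
    apply class_structure (F κ) _ _ hn
    · intro S hS
      rw [hF] at hS
      simp only [mem_filter] at hS
      exact (hVmem S).mp hS.1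
    · intro S hS T hT
      rw [hF] at hS hT
      simp only [mem_filter] at hS hT
      exact hcol S T ((hVmem S).mp hS.1) ((hVmem T).mp hT.1) (by rw [hS.2, hT.2])
  choose ctr τ hctr using hstruct
  -- exceptional sets
  set E : Finset (Finset (Fin n)) := V.filter (fun S => ¬ Cons S (ctr (col S)) (τ (col S))) with hE
  have hEcard : E.card ≤ 16 * C * n ^ 3 := by
    have hsub : E ⊆ (univ : Finset (Fin m)).biUnion
        (fun κ => (F κ).filter (fun S => ¬ Cons S (ctr κ) (τ κ))) := by
      intro S hS
      rw [hE, mem_filter] at hS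
      rw [mem_biUnion]
      refine ⟨col S, mem_univ _, ?_⟩
      rw [mem_filter]
      refine ⟨?_, hS.2⟩
      rw [hF]
      simp only [mem_filter]
      exact ⟨hS.1, trivial⟩
    calc E.card ≤ _ := card_le_card hsub
      _ ≤ (univ : Finset (Fin m)).card * (16 * n ^ 2) :=
          card_biUnion_le_card_mul _ _ _ (fun κ _ => hctr κ)
      _ = m * (16 * n ^ 2) := by simp
      _ ≤ (C * n) * (16 * n ^ 2) := Nat.mul_le_mul_right _ hm
      _ = 16 * C * n ^ 3 := by ring
  -- centres with few colours
  set deg : Fin n → ℕ := fun i => ((univ : Finset (Fin m)).filter (fun κ => ctr κ = i)).card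
    with hdeg
  have hsumdeg : ∑ i, deg i = m := by
    have := card_eq_sum_card_fiberwise (f := ctr) (s := (univ : Finset (Fin m)))
      (t := (univ : Finset (Fin n))) (by intro x _; simp)
    simp only [card_univ, Fintype.card_fin] at this
    rw [this]
  set I : Finset (Fin n) := univ.filter (fun i => deg i ≤ 2 * C) with hI
  have hIcard : n ≤ 2 * I.card := by
    have hsplit : I.card + (univ.filter (fun i => ¬ deg i ≤ 2 * C)).card = n := by
      have := card_filter_add_card_filter_not (s := (univ : Finset (Fin n)))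
        (fun i => deg i ≤ 2 * C)
      rw [hI]
      simpa using this
    have hbig : (univ.filter (fun i => ¬ deg i ≤ 2 * C)).card * (2 * C + 1) ≤ m := by
      rw [← hsumdeg]
      calc _ = ∑ _i ∈ univ.filter (fun i => ¬ deg i ≤ 2 * C), (2 * C + 1) := by
            rw [sum_const, smul_eq_mul]
        _ ≤ ∑ i ∈ univ.filter (fun i => ¬ deg i ≤ 2 * C), deg i := by
            apply sum_le_sum
            intro i hi
            rw [mem_filter] at hi
            omega
        _ ≤ ∑ i, deg i := sum_le_sum_of_subset (filter_subset _ _)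
    by_contra hcon
    push Not at hcon
    set r := (univ.filter (fun i => ¬ deg i ≤ 2 * C)).card with hr
    have hr2 : n < 2 * r := by omega
    have : r * (2 * C + 1) ≤ C * n := le_trans hbig hm
    nlinarith
  set N := I.card / 2 with hN
  have hN1 : 1 ≤ N := by omega
  have hN2 : 2 * N ≤ I.card := by omega
  have hnN : n ≤ 8 * N := by omega
  let e : Fin I.card ↪o Fin n := I.orderEmbOfFin rfl
  have heI : ∀ k, e k ∈ I := fun k => I.orderEmbOfFin_mem rfl k
  set I₁ : Finset (Fin n) := (univ : Finset (Fin N)).image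
    (fun k => e ⟨k.val, by have := k.isLt; omega⟩) with hI₁
  set I₂ : Finset (Fin n) := (univ : Finset (Fin N)).image
    (fun k => e ⟨N + k.val, by have := k.isLt; omega⟩) with hI₂
  have hI₁card : I₁.card = N := by
    rw [hI₁, card_image_of_injective]
    · simp
    · intro a b hab
      have := e.injective hab
      simp only [Fin.mk.injEq] at this
      exact Fin.ext this
  have hI₂card : I₂.card = N := by
    rw [hI₂, card_image_of_injective]
    · simp
    · intro a b hab
      have := e.injective hab
      simp only [Fin.mk.injEq, Nat.add_left_cancel_iff] at this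
      exact Fin.ext this
  have hlt : ∀ x ∈ I₁, ∀ y ∈ I₂, x < y := by
    intro x hx y hy
    rw [hI₁, mem_image] at hx
    rw [hI₂, mem_image] at hy
    obtain ⟨k, _, rfl⟩ := hx
    obtain ⟨l, _, rfl⟩ := hy
    apply e.strictMono
    rw [Fin.lt_def]
    have := k.isLt
    simp only
    omega
  have hsubI : ∀ i ∈ I₁ ∪ I₂, i ∈ I := by
    intro i hi
    rw [mem_union] at hi
    rcases hi with hi | hi
    · rw [hI₁, mem_image] at hi
      obtain ⟨k, _, rfl⟩ := hi
      exact heI _
    · rw [hI₂, mem_image] at hi
      obtain ⟨k, _, rfl⟩ := hi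
      exact heI _
  -- the pair colouring
  set g : Fin n → Fin n → Finset (Fin m) := fun i j =>
    univ.filter (fun κ => ctr κ = i ∧ τ κ j = true) with hg
  have hgeq : ∀ i a b, g i a = g i b → ∀ κ, ctr κ = i → τ κ a = τ κ b := by
    intro i a b hab κ hκ
    have h1 : κ ∈ g i a ↔ κ ∈ g i b := by rw [hab]
    rw [hg] at h1
    simp only [mem_filter, mem_univ, true_and, hκ] at h1
    rcases Bool.eq_false_or_eq_true (τ κ a) with h2 | h2 <;>
      rcases Bool.eq_false_or_eq_true (τ κ b) with h3 | h3 <;> simp_all
  have hcount := quad_count I₁ I₂ g (2 ^ (2 * C))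
    (fun i => (univ.filter (fun κ => ctr κ = i)).powerset)
    (by
      intro i hi
      rw [card_powerset]
      apply Nat.pow_le_pow_right (by norm_num)
      have := hsubI i hi
      rw [hI, mem_filter] at this
      exact this.2)
    (by
      intro i _ j
      rw [mem_powerset, hg]
      intro κ hκ
      simp only [mem_filter] at hκ ⊢
      exact ⟨hκ.1, hκ.2.1⟩)
  rw [hI₁card, hI₂card] at hcount
  -- bound on Quad
  have hQ : (Quad I₁ I₂ g).card ≤ 2 * n ^ 3 + 256 * E.card := by
    have hsub : Quad I₁ I₂ g ⊆
        ((univ : Finset (Fin n × Fin n × Fin n)).image (fun p => ((p.1, p.1), (p.2.1, p.2.2))) ∪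
        (univ : Finset (Fin n × Fin n × Fin n)).image (fun p => ((p.1, p.2.1), (p.2.2, p.2.2)))) ∪
        E.biUnion (fun S => (S ×ˢ S) ×ˢ (S ×ˢ S)) := by
      rintro ⟨⟨a, b⟩, ⟨c, d⟩⟩ hp
      simp only [Quad, mem_filter, mem_product] at hp
      obtain ⟨⟨⟨ha, hb⟩, hc, hd⟩, ⟨h1, h2⟩, h3, h4⟩ := hp
      by_cases hab : a = b
      · apply mem_union_left
        apply mem_union_left
        rw [mem_image]
        exact ⟨(a, c, d), mem_univ _, by rw [hab]⟩
      by_cases hcd : c = d
      · apply mem_union_left
        apply mem_union_right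
        rw [mem_image]
        exact ⟨(a, b, c), mem_univ _, by rw [hcd]⟩
      apply mem_union_right
      rw [mem_biUnion]
      refine ⟨{a, b, c, d}, ?_, ?_⟩
      · rw [hE, mem_filter, hVmem]
        have hac := hlt a ha c hc
        have had := hlt a ha d hd
        have hbc := hlt b hb c hc
        have hbd := hlt b hb d hd
        constructor
        · rw [card_eq_of_equiv_fin]
          have : ({a, b, c, d} : Finset (Fin n)).card = 4 := by
            rw [card_insert_of_notMem, card_insert_of_notMem, card_pair hcd]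
            · simp only [mem_insert, mem_singleton, not_or]
              exact ⟨hbc.ne, hbd.ne⟩
            · simp only [mem_insert, mem_singleton, not_or]
              exact ⟨hab, hac.ne, had.ne⟩
          exact (Finset.equivFinOfCardEq this)
        · exact not_cons hab hcd hac had hbc hbd ctr τ _ (hgeq c a b h1) (hgeq d a b h2)
            (hgeq a c d h3) (hgeq b c d h4)
      · simp
    calc (Quad I₁ I₂ g).card ≤ _ := card_le_card hsub
      _ ≤ (((univ : Finset (Fin n × Fin n × Fin n)).image
            (fun p => ((p.1, p.1), (p.2.1, p.2.2)))).card +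
          ((univ : Finset (Fin n × Fin n × Fin n)).image
            (fun p => ((p.1, p.2.1), (p.2.2, p.2.2)))).card) +
          (E.biUnion (fun S => (S ×ˢ S) ×ˢ (S ×ˢ S))).card := by
          refine le_trans (card_union_le _ _) (Nat.add_le_add_right (card_union_le _ _) _)
      _ ≤ (n ^ 3 + n ^ 3) + E.card * 256 := by
          apply Nat.add_le_add
          · apply Nat.add_le_add
            · refine le_trans card_image_le ?_
              simp only [card_univ, Fintype.card_prod, Fintype.card_fin]
              nlinarith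
            · refine le_trans card_image_le ?_
              simp only [card_univ, Fintype.card_prod, Fintype.card_fin]
              nlinarith
          · apply card_biUnion_le_card_mul
            intro S hS
            rw [hE, mem_filter, hVmem] at hS
            rw [card_product, card_product, hS.1]
      _ = 2 * n ^ 3 + 256 * E.card := by ring
  have hfin : N ^ 4 ≤ 2 ^ (8 * C) * ((2 + 4096 * C) * n ^ 3) := by
    calc N ^ 4 = N ^ 2 * N ^ 2 := by ring
      _ ≤ (2 ^ (2 * C)) ^ 4 * (Quad I₁ I₂ g).card := hcount
      _ ≤ (2 ^ (2 * C)) ^ 4 * (2 * n ^ 3 + 256 * E.card) := Nat.mul_le_mul_left _ hQ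
      _ ≤ (2 ^ (2 * C)) ^ 4 * (2 * n ^ 3 + 256 * (16 * C * n ^ 3)) :=
          Nat.mul_le_mul_left _ (Nat.add_le_add_left (Nat.mul_le_mul_left _ hEcard) _)
      _ = 2 ^ (8 * C) * ((2 + 4096 * C) * n ^ 3) := by
          rw [← pow_mul]; ring_nf
  have hC2 : C ≤ 2 ^ C := Nat.lt_two_pow_self.le
  have h8 : n ^ 3 * n ≤ n ^ 3 * 2 ^ (25 + 9 * C) := by
    calc n ^ 3 * n = n ^ 4 := by ring
      _ ≤ (8 * N) ^ 4 := Nat.pow_le_pow_left hnN 4
      _ = 2 ^ 12 * N ^ 4 := by ring
      _ ≤ 2 ^ 12 * (2 ^ (8 * C) * ((2 + 4096 * C) * n ^ 3)) := Nat.mul_le_mul_left _ hfin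
      _ ≤ 2 ^ 12 * (2 ^ (8 * C) * ((2 ^ 13 * 2 ^ C) * n ^ 3)) := by
          apply Nat.mul_le_mul_left
          apply Nat.mul_le_mul_left
          apply Nat.mul_le_mul_right
          omega
      _ = n ^ 3 * 2 ^ (25 + 9 * C) := by
          rw [show 25 + 9 * C = 12 + (8 * C + (13 + C)) by ring, pow_add, pow_add, pow_add]
          ring
  exact Nat.le_of_mul_le_mul_left h8 (by positivity)

end Pool.Agent.W_MP_9d843c_co
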